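import Pool.Agent.T2H22.AQ.AsmA
import Pool.Agent.T2H22.AA.EP1

/-! Auxiliary lemmas for `AR/Asm.lean` (a separate file, so that the long theorems are compiled in parallel). -/

set_option autoImplicit false

open Finset

namespace Pool.Agent.T2H22.AR

open Pool.Agent.T2H22.AA
open Pool.Agent.T2H22.AQ (LocQ LocQ_congr lowQ)

open Pool.Agent.H361R2.PP
open Pool.Agent.W70.HR
open Pool.Agent.H862R2.PPSm5 (vv_lower HH_tendsto log_tendsto)
open Pool.Agent.H373R2.T7 (Vz pz mem_pz)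
open Pool.Agent.T2H22.BG (sh sh_inj)

open Classical in
/-- the number of the good `x` -/
noncomputable def gdR2 (S : Finset ℕ) (τ : ℕ → ℕ) (Q : ℕ → ℕ → Prop) (c1 r X N : ℕ) : ℕ :=
  ((Ico (4 * X) (8 * X)).filter (fun x => x ≤ N ∧
    r ≤ (S.filter (fun a => Q (N - x) a ∧ (x + τ a).Prime)).card ∧
    ∀ t : ℕ, 1 ≤ t → t ≤ c1 → (x + t).Prime → ∃ a ∈ S, τ a = t ∧ Q (N - x) a)).card

/-- the number of the clusters -/
theorem count_leR2 (Q : ℕ → ℕ → Prop) (c1 : ℕ) (S S' : Finset ℕ) (hS' : S' ⊆ S) (τ : ℕ → ℕ) (hτ : Set.InjOn τ S) (r X : ℕ) (ρ : ℕ → ℝ)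
    (hρ : ∀ x, 0 ≤ ρ x) (hρ1 : ∀ x, ρ x ≤ 1) (E G : Finset ℕ) (hG : ∀ y ∈ G, ∀ a ∈ S', Q y a) :
    ∑ n ∈ (range (8 * X)).filter (fun n => r ≤ ((S'.image τ).filter
      (fun a => (n + a).Prime)).card ∧ ∀ t ∈ Icc 1 c1 \ S'.image τ, ¬ (n + t).Prime), wI X ρ E G n ≤ ∑ N ∈ E, (gdR2 S τ Q c1 r X N : ℝ) := by
  classical
  set P : ℕ → Prop := fun n => r ≤ ((S'.image τ).filter (fun a => (n + a).Prime)).card ∧
    ∀ t ∈ Icc 1 c1 \ S'.image τ, ¬ (n + t).Prime with hP
  set I' := (Ico (4 * X) (8 * X)).filter P with hI'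
  have h1 : ∑ n ∈ (range (8 * X)).filter P, wI X ρ E G n ≤ ∑ x ∈ I', (1 : ℝ) * mm E G x := by
    have h2 : I' = ((range (8 * X)).filter P).filter (fun x => x ∈ Ico (4 * X) (8 * X)) := by
      ext x
      rw [hI', mem_filter, mem_filter, mem_filter, mem_range, mem_Ico]
      constructor
      · rintro ⟨a, b⟩
        exact ⟨⟨a.2, b⟩, a⟩
      · rintro ⟨⟨a, b⟩, c⟩
        exact ⟨c, b⟩
    rw [h2, sum_filter (s := (range (8 * X)).filter P)]
    apply sum_le_sum
    intro x _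
    unfold wI
    split_ifs with h
    · rw [one_mul]
      calc ρ x * mm E G x ≤ 1 * mm E G x := mul_le_mul_of_nonneg_right (hρ1 x) (mm_nonneg _ _ _)
        _ = _ := one_mul _
    · exact le_rfl
  refine h1.trans ?_
  rw [mm_sum]
  apply sum_le_sum
  intro N _
  rw [sum_comm]
  have h3 : ∀ x ∈ I', ∑ y ∈ G, (if x + y = N then (1 : ℝ) else 0) ≤
      if x ≤ N ∧ N - x ∈ G then 1 else 0 := by
    intro x _
    by_cases h : x ≤ N ∧ N - x ∈ G
    · rw [if_pos h, sum_eq_single (N - x)]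
      · split_ifs <;> norm_num
      · intro y _ hne
        rw [if_neg (by omega)]
      · intro h'
        exact absurd h.2 h'
    · rw [if_neg h]
      apply le_of_eq
      apply sum_eq_zero
      intro y hy
      rw [if_neg]
      intro he
      apply h
      have : N - x = y := by omega
      exact ⟨by omega, by rwa [this]⟩
  refine (sum_le_sum h3).trans ?_
  rw [← sum_filter, sum_const, nsmul_eq_mul, mul_one]
  apply Nat.cast_le.2
  unfold gdR2
  apply card_le_card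
  intro x hx
  rw [mem_filter, hI', mem_filter] at hx
  rw [mem_filter]
  refine ⟨hx.1.1, hx.2.1, ?_, ?_⟩
  swap
  · intro t ht1 htc htp
    by_cases htT : t ∈ S'.image τ
    · rw [mem_image] at htT
      obtain ⟨a, ha, rfl⟩ := htT
      exact ⟨a, hS' ha, rfl, hG _ hx.2.2 a ha⟩
    · exact absurd htp (hx.1.2.2 t (mem_sdiff.2 ⟨mem_Icc.2 ⟨ht1, htc⟩, htT⟩))
  have h4 : r ≤ ((S'.image τ).filter (fun a => (x + a).Prime)).card := hx.1.2.1
  refine h4.trans ?_
  have h5 : (S'.image τ).filter (fun a => (x + a).Prime) ⊆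
      (S.filter (fun a => Q (N - x) a ∧ (x + τ a).Prime)).image τ := by
    intro t ht
    rw [mem_filter, mem_image] at ht
    obtain ⟨⟨a, ha, rfl⟩, hp⟩ := ht
    rw [mem_image]
    refine ⟨a, ?_, rfl⟩
    rw [mem_filter]
    exact ⟨hS' ha, hG _ hx.2.2 a ha, hp⟩
  exact (card_le_card h5).trans card_image_le

theorem loglog_small (ε : ℝ) (hε : 0 < ε) : ∃ X₀ : ℕ, ∀ X : ℕ, X₀ ≤ X →
    Real.log (Real.log X) ≤ ε * Real.log X := by
  have h1 : ∀ᶠ x : ℝ in Filter.atTop, Real.log x ≤ ε * x := by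
    have := Real.isLittleO_log_id_atTop.bound hε
    filter_upwards [this, Filter.eventually_ge_atTop 1] with x hx hx1
    rw [id, Real.norm_of_nonneg (Real.log_nonneg hx1), Real.norm_of_nonneg (by linarith)] at hx
    exact hx
  exact Filter.eventually_atTop.1 (log_tendsto.eventually h1)

end Pool.Agent.T2H22.AR
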