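import Pool.Agent.T2H22.AR.Asm
import Pool.Agent.T2H22.AQ.Gen

/-! Project AR (runs on both sides): the theorem for almost all integers. -/

set_option autoImplicit false

open Finset

namespace Pool.Agent.T2H22.AR

open Pool.Agent.T2H22.AA
open Pool.Agent.T2H22.AQ
open Pool.Agent.W70.HR
open Pool.Agent.H361R2.PP
open Pool.Agent.H862R2.PPSm5 (log_tendsto HH_tendsto)

open Classical in
/-- almost all integers, for a general pattern and a general selection -/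
theorem main_R2 (hSec : SecM) (r : ℕ) : ∃ k : ℕ, 1 ≤ k ∧ ∀ k1 : ℕ, k ≤ k1 → ∃ k2 : ℕ, k1 ≤ k2 ∧
    ∀ (S : Finset ℕ) (τ : ℕ → ℕ), S.card = k2 →
    (∀ a ∈ S, 1 ≤ a) → Set.InjOn τ S → (∀ a ∈ S, 1 ≤ τ a) → ∀ e : ℕ, ∃ D : ℕ,
    ∀ ε : ℝ, 0 < ε → ∀ c1 Y₀ : ℕ, ∃ X₀ : ℕ, ∀ Q : ℕ → ℕ → Prop, Sel S k1 k Q →
    ∀ cnt : ℕ → ℕ, (∀ X n : ℕ, Y₀ ≤ X → X ≤ n → n < 4 * X → e ≤ 2 * n → gdR2 S τ Q c1 r X (2 * n - e) ≤ cnt n) →
    ∀ X : ℕ, X₀ ≤ X →
    (((Icc 1 X).filter (fun n : ℕ => (∀ Y : ℕ, Y₀ ≤ Y → LocQ S τ (CI S Y) Y (2 * n - e)) ∧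
      (cnt n : ℝ) < n / Real.log n ^ D)).card : ℝ) ≤ ε * X := by
  obtain ⟨k, hk, hone⟩ := oneR2 hSec (eqI tR) (eqP tR supF (eqI tR)) r
  refine ⟨k, hk, fun k1 hk1 => ?_⟩
  obtain ⟨k2, hk2, hone⟩ := hone k1 hk1
  refine ⟨k2, hk2, fun S τ hSc hS1 hτ hτ1 e => ?_⟩
  obtain ⟨D, h⟩ := hone S τ hSc hS1 hτ hτ1
  refine ⟨D + 1, fun ε hε c1 Y₀ => ?_⟩
  obtain ⟨X₁, h1⟩ := h (ε / 12) (by positivity) c1
  obtain ⟨X₂, h2⟩ := Filter.eventually_atTop.1 (log_tendsto.eventually_ge_atTop (4 : ℝ))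
  set Y₁ : ℕ := max (4 * X₁) (max (4 * X₂) (max (4 * Y₀) (12 * e + 100))) with hY₁
  refine ⟨⌈2 * Y₁ / ε⌉₊, fun Q hQ cnt hcnt X hX => ?_⟩
  set P : ℕ → Prop := fun n : ℕ => (∀ Y : ℕ, Y₀ ≤ Y → LocQ S τ (CI S Y) Y (2 * n - e)) ∧
    (cnt n : ℝ) < n / Real.log n ^ (D + 1) with hP
  have hkey : ∀ Y : ℕ, Y₁ ≤ Y → (((Ioc (5 * Y / 6) Y).filter P).card : ℝ) ≤ ε / 12 * Y := by
    intro Y hY
    simp only [hY₁, max_le_iff] at hY
    obtain ⟨hY1, hY2, hY2', hY3⟩ := hY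
    set X : ℕ := Y / 4 + 1 with hX
    have hXX1 : X₁ ≤ X := by omega
    have hXX2 : X₂ ≤ X := by omega
    have hXY0 : Y₀ ≤ X := by omega
    have h3 := h1 X hXX1 (CI S X) Q (fun b _ hC y hy => hQ y (iso_of (by omega) hC hy))
    have hL4 := h2 X hXX2
    have hXY : (X : ℝ) ≤ Y := by
      have : X ≤ Y := by omega
      exact_mod_cast this
    refine le_trans ?_ (mul_le_mul_of_nonneg_left hXY (by positivity : 0 ≤ ε / 12))
    refine le_trans ?_ h3
    apply Nat.cast_le.2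
    apply card_le_card_of_injOn (fun n => 2 * n - e)
    · intro n hn
      rw [mem_coe, mem_filter, mem_Ioc] at hn
      obtain ⟨⟨hn1, hn2⟩, hn3⟩ := hn
      have hn4 : n < 4 * X := by omega
      have hn5 : X ≤ n := by omega
      rw [mem_coe, mem_filter, mem_Ico]
      simp only
      refine ⟨⟨by omega, by omega⟩, hn3.1 X hXY0, ?_⟩
      have h4 := hcnt X n hXY0 hn5 hn4 (by omega)
      have h5 : (gdR2 S τ Q c1 r X (2 * n - e) : ℝ) ≤ cnt n := by exact_mod_cast h4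
      refine lt_of_le_of_lt h5 (lt_of_lt_of_le hn3.2 ?_)
      have hX0 : (0 : ℝ) < X := by
        have : 0 < X := by omega
        exact_mod_cast this
      have hnr : (n : ℝ) ≤ 4 * X := by exact_mod_cast hn4.le
      have hXn : (X : ℝ) ≤ n := by exact_mod_cast hn5
      have hLn : Real.log X ≤ Real.log n := Real.log_le_log hX0 hXn
      have hL0 : 0 < Real.log X := by linarith
      calc (n : ℝ) / Real.log n ^ (D + 1) ≤ (4 * X) / Real.log X ^ (D + 1) := by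
            apply div_le_div₀ (by positivity) hnr (by positivity)
            exact pow_le_pow_left₀ hL0.le hLn _
        _ = (4 / Real.log X) * (X / Real.log X ^ D) := by
            rw [pow_succ]
            field_simp
        _ ≤ 1 * (X / Real.log X ^ D) := by
            apply mul_le_mul_of_nonneg_right _ (by positivity)
            rw [div_le_one hL0]
            exact hL4
        _ = _ := one_mul _
    · intro n hn n' hn' he
      rw [mem_coe, mem_filter, mem_Ioc] at hn hn'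
      simp only at he
      omega
  have hit := Pool.Agent.T2H22.AD.iter' P (ε / 12) (by positivity) Y₁ (by omega) hkey
  refine (hit X).trans ?_
  have h6 : 2 * (Y₁ : ℝ) / ε ≤ X := (Nat.le_ceil _).trans (by exact_mod_cast hX)
  rw [div_le_iff₀ hε] at h6
  linarith

open Classical in
/-- almost all integers, with the conditions for the primes only -/
theorem all_R2 (hSec : SecM) (r : ℕ) : ∃ k : ℕ, 1 ≤ k ∧ ∀ k1 : ℕ, k ≤ k1 → ∃ k2 : ℕ, k1 ≤ k2 ∧
    ∀ (S : Finset ℕ) (τ : ℕ → ℕ), S.card = k2 →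
    (∀ a ∈ S, 1 ≤ a) → Set.InjOn τ S → (∀ a ∈ S, 1 ≤ τ a) → ∀ e : ℕ, ∃ D : ℕ,
    ∀ ε : ℝ, 0 < ε → ∀ c1 Y₀ : ℕ, ∃ X₀ : ℕ, ∀ Q : ℕ → ℕ → Prop, Sel S k1 k Q →
    ∀ cnt : ℕ → ℕ, (∀ X n : ℕ, Y₀ ≤ X → X ≤ n → n < 4 * X → e ≤ 2 * n → gdR2 S τ Q c1 r X (2 * n - e) ≤ cnt n) →
    ∀ X : ℕ, X₀ ≤ X →
    (((Icc 1 X).filter (fun n : ℕ => e ≤ 2 * n ∧
      (∀ p : ℕ, p.Prime → ∃ x : ℕ, ∀ a ∈ S, ¬ p ∣ x + a ∧ ¬ x ≡ 2 * n - e + τ a [MOD p]) ∧
      (cnt n : ℝ) < n / Real.log n ^ D)).card : ℝ) ≤ ε * X := by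
  obtain ⟨k, hk, hmain⟩ := main_R2 hSec r
  refine ⟨k, hk, fun k1 hk1 => ?_⟩
  obtain ⟨k2, hk2, hmain⟩ := hmain k1 hk1
  refine ⟨k2, hk2, fun S τ hSc hS1 hτ hτ1 e => ?_⟩
  obtain ⟨D, hmain⟩ := hmain S τ hSc hS1 hτ hτ1 e
  refine ⟨D, fun ε hε c1 Y₀ => ?_⟩
  set c0 : ℕ := S.sup id with hc0d
  have hc0 : ∀ a ∈ S, a ≤ c0 := fun a ha => Finset.le_sup (f := id) ha
  -- the primes for the isolation
  set t : ℕ := (c0 + 1) * k2 with ht
  obtain ⟨q, hq, hqi, hqM⟩ := ex_q (max (max c0 2) ⌈4 * (t : ℝ) / ε⌉₊)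
  have hqc : ∀ d, c0 < q d := fun d => lt_of_le_of_lt ((le_max_left _ _).trans (le_max_left _ _)) (hqM d)
  have hq2 : ∀ d, q d ≠ 2 := fun d => by
    have := lt_of_le_of_lt ((le_max_right _ _).trans (le_max_left _ _)) (hqM d)
    omega
  have hqε : ∀ d, 4 * (t : ℝ) / ε ≤ q d := fun d => (Nat.le_ceil _).trans (by
    exact_mod_cast ((le_max_right _ _).trans (hqM d).le))
  obtain ⟨XH, hXH⟩ := Filter.eventually_atTop.1 (HH_tendsto.eventually_ge_atTop ((range (c0 + 1)).sup q))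
  obtain ⟨X₀, h0⟩ := hmain (ε / 2) (by positivity) c1 (max Y₀ XH)
  refine ⟨max X₀ ⌈4 * (t : ℝ) / ε⌉₊, fun Q hQ cnt hcnt X hX => ?_⟩
  have h1 := h0 Q hQ cnt (fun X n h1 h2 h3 h4 => hcnt X n ((le_max_left _ _).trans h1) h2 h3 h4) X
    ((le_max_left _ _).trans hX)
  have hXε : 4 * (t : ℝ) / ε ≤ X := (Nat.le_ceil _).trans (by exact_mod_cast (le_max_right _ _).trans hX)
  have hgap : ∀ d, Gap S d → d ∈ range (c0 + 1) := by
    intro d hd
    obtain ⟨a, ha, hda⟩ := hd.2.2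
    have := hc0 a ha
    rw [mem_range]
    omega
  -- the exceptional integers for the isolation
  set w : ℕ → ℕ → ℕ := fun d a => τ a + d + (q d - 1) * e with hw
  set B : Finset ℕ := (range (c0 + 1)).biUnion (fun d => S.biUnion (fun a =>
    (Icc 1 X).filter (fun n => q d ∣ 2 * n + w d a))) with hB
  have hBc : (B.card : ℝ) ≤ ε / 2 * X := by
    have h2 : (B.card : ℝ) ≤ ∑ d ∈ range (c0 + 1), ∑ a ∈ S,
        (((Icc 1 X).filter (fun n => q d ∣ 2 * n + w d a)).card : ℝ) := by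
      have h3 : B.card ≤ ∑ d ∈ range (c0 + 1), ∑ a ∈ S, ((Icc 1 X).filter (fun n => q d ∣ 2 * n + w d a)).card := by
        refine card_biUnion_le.trans (sum_le_sum fun d _ => card_biUnion_le)
      exact_mod_cast h3
    have h3 : ∀ d ∈ range (c0 + 1), ∀ a ∈ S,
        (((Icc 1 X).filter (fun n => q d ∣ 2 * n + w d a)).card : ℝ) ≤ X / q d + 1 :=
      fun d _ a _ => card_class (q d) (w d a) X (hq d) (hq2 d)
    rcases Nat.eq_zero_or_pos t with ht0 | ht0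
    · have hk0 : k2 = 0 := by
        rcases Nat.mul_eq_zero.1 ht0 with h | h
        · omega
        · exact h
      have hS0 : S = ∅ := card_eq_zero.1 (hSc.trans hk0)
      have hB0 : B = ∅ := by
        rw [hB, hS0]
        ext n
        simp
      rw [hB0, card_empty, Nat.cast_zero]
      positivity
    have htr : (0 : ℝ) < t := by exact_mod_cast ht0
    have h4 : ∀ d ∈ range (c0 + 1), ∀ a ∈ S, (X : ℝ) / q d + 1 ≤ ε / (2 * t) * X := by
      intro d _ a _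
      have h5 := hqε d
      have hq0 : (0 : ℝ) < q d := by exact_mod_cast (hq d).pos
      rw [div_le_iff₀ hε] at h5 hXε
      have h6 : (X : ℝ) / q d ≤ ε / (4 * t) * X := by
        rw [div_le_iff₀ hq0]
        have h7 : 1 ≤ ε / (4 * t) * q d := by
          rw [div_mul_eq_mul_div, le_div_iff₀ (by positivity)]
          linarith
        calc (X : ℝ) = 1 * X := (one_mul _).symm
          _ ≤ (ε / (4 * t) * q d) * X := mul_le_mul_of_nonneg_right h7 (Nat.cast_nonneg _)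
          _ = _ := by ring
      have h7 : 1 ≤ ε / (4 * t) * X := by
        rw [div_mul_eq_mul_div, le_div_iff₀ (by positivity)]
        linarith
      have h8 : ε / (2 * t) * X = ε / (4 * t) * X + ε / (4 * t) * X := by
        field_simp
        ring
      rw [h8]
      exact add_le_add h6 h7
    calc (B.card : ℝ) ≤ ∑ d ∈ range (c0 + 1), ∑ a ∈ S, ε / (2 * t) * X :=
          h2.trans (sum_le_sum fun d hd => sum_le_sum fun a ha => (h3 d hd a ha).trans (h4 d hd a ha))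
      _ = ε / 2 * X := by
          rw [sum_const, sum_const, card_range, hSc, nsmul_eq_mul, nsmul_eq_mul]
          have ht' : (t : ℝ) = (c0 + 1 : ℕ) * k2 := by
            rw [ht]
            push_cast
            ring
          have h5 : ((c0 + 1 : ℕ) : ℝ) * ((k2 : ℝ) * (ε / (2 * t) * X)) = t * (ε / (2 * t) * X) := by
            rw [ht']
            ring
          rw [h5]
          field_simp
  have hsub : ((Icc 1 X).filter (fun n : ℕ => e ≤ 2 * n ∧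
      (∀ p : ℕ, p.Prime → ∃ x : ℕ, ∀ a ∈ S, ¬ p ∣ x + a ∧ ¬ x ≡ 2 * n - e + τ a [MOD p]) ∧
      (cnt n : ℝ) < n / Real.log n ^ D)) ⊆ B ∪ ((Icc 1 X).filter (fun n : ℕ =>
      (∀ Y : ℕ, max Y₀ XH ≤ Y → LocQ S τ (CI S Y) Y (2 * n - e)) ∧ (cnt n : ℝ) < n / Real.log n ^ D)) := by
    intro n hn
    rw [mem_filter] at hn
    obtain ⟨hn1, hn2, hn3, hn4⟩ := hn
    rw [mem_union]
    by_cases hnB : n ∈ B
    · exact Or.inl hnB
    right
    rw [mem_filter]
    refine ⟨hn1, fun Y hY => ?_, hn4⟩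
    have hHH := hXH Y ((le_max_right _ _).trans hY)
    apply locI_of S τ Y (2 * n - e) q hq hqi (fun d a ha => lt_of_le_of_lt (hc0 a ha) (hqc d))
      (fun d hd => (Finset.le_sup (f := q) (hgap d hd)).trans hHH) _ hn3
    intro d hd a ha hdv
    apply hnB
    rw [hB, mem_biUnion]
    refine ⟨d, hgap d hd, ?_⟩
    rw [mem_biUnion]
    refine ⟨a, ha, ?_⟩
    rw [mem_filter]
    refine ⟨hn1, ?_⟩
    have hq1 := (hq d).pos
    have h5 : 2 * n + w d a = (2 * n - e + τ a + d) + q d * e := by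
      simp only [hw]
      have : (q d - 1) * e + e = q d * e := by
        rw [Nat.sub_mul, one_mul]
        have : e ≤ q d * e := Nat.le_mul_of_pos_left e hq1
        omega
      omega
    rw [h5]
    exact dvd_add hdv (dvd_mul_right _ _)
  have h2 := (card_le_card hsub).trans (card_union_le _ _)
  have h3 : (((Icc 1 X).filter (fun n : ℕ => e ≤ 2 * n ∧
      (∀ p : ℕ, p.Prime → ∃ x : ℕ, ∀ a ∈ S, ¬ p ∣ x + a ∧ ¬ x ≡ 2 * n - e + τ a [MOD p]) ∧
      (cnt n : ℝ) < n / Real.log n ^ D)).card : ℝ) ≤ B.card + (((Icc 1 X).filter (fun n : ℕ =>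
      (∀ Y : ℕ, max Y₀ XH ≤ Y → LocQ S τ (CI S Y) Y (2 * n - e)) ∧
      (cnt n : ℝ) < n / Real.log n ^ D)).card : ℝ) := by exact_mod_cast h2
  linarith

end Pool.Agent.T2H22.AR
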