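import Pool.Agent.T2H22.AR.Gen
import Pool.Agent.T2H22.AQ.Run

/-! Project AR (runs on both sides): runs of consecutive primes on both sides. -/

set_option autoImplicit false

open Finset

namespace Pool.Agent.T2H22.AR

open Pool.Agent.T2H22.AA
open Pool.Agent.T2H22.AQ
open Pool.Agent.T2H22.AD (fin_small)
open Pool.Agent.H862R2.PPSm5 (log_tendsto HH_tendsto)
open Pool.Agent.T2H22.BG (sh sh_inj)

/-- the run `p (i' + 1), …, p (i' + r)` has diameter at most `C` and is complementary to selected primes of a run of `K`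
consecutive primes of diameter at most `C` -/
def Good2 (σ : ℕ → Finset ℕ) (K r C n i' : ℕ) : Prop :=
  pr (i' + r) ≤ pr (i' + 1) + C ∧ ∃ i : ℕ, pr (i + K) ≤ pr (i + 1) + C ∧
    ∀ j' : ℕ, 1 ≤ j' → j' ≤ r → ∃ j ∈ σ i, pr (i + j) < pr (i' + j') ∧ pr (i + j) + pr (i' + j') = 2 * n

open Classical in
/-- the number of these runs -/
noncomputable def good2 (σ : ℕ → Finset ℕ) (K r C n : ℕ) : ℕ :=
  ((range (2 * n)).filter (fun i' => Good2 σ K r C n i')).card

open Classical in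
theorem main_RR (hSec : SecM) (r : ℕ) (hr : 1 ≤ r) : ∃ k : ℕ, 1 ≤ k ∧ ∀ K : ℕ, k ≤ K → ∃ C D : ℕ, ∀ ε : ℝ, 0 < ε →
    ∃ X₀ : ℕ, ∀ σ : ℕ → Finset ℕ, (∀ i, σ i ⊆ Icc 1 K ∧ k ≤ (σ i).card) → ∀ X : ℕ, X₀ ≤ X →
    (((Icc 1 X).filter (fun n : ℕ => (good2 σ K r C n : ℝ) < n / Real.log n ^ D)).card : ℝ) ≤ ε * X := by
  obtain ⟨k, hk, hmain⟩ := all_R2 hSec r
  refine ⟨k, hk, fun K hK => ?_⟩
  obtain ⟨k2, hk2, hmain⟩ := hmain K hK
  -- the tuple
  set M0 : ℕ := (2 * k2 + 2).factorial with hM0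
  have hM00 : 0 < M0 := Nat.factorial_pos _
  set S : Finset ℕ := (range k2).image (sh M0) with hS
  have hSc : S.card = k2 := by
    rw [hS, card_image_of_injective _ (sh_inj hM00), card_range]
  have hmin : ∀ a ∈ S, M0 ≤ a := by
    intro a ha
    rw [hS, mem_image] at ha
    obtain ⟨i, _, rfl⟩ := ha
    unfold sh
    exact Nat.le_mul_of_pos_right _ (by omega)
  have hS1 : ∀ a ∈ S, 1 ≤ a := fun a ha => le_trans hM00 (hmin a ha)
  have hm0 : M0 ∈ S := by
    rw [hS, mem_image]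
    refine ⟨0, mem_range.2 (by omega), ?_⟩
    unfold sh
    ring
  have hSdiv : ∀ a ∈ S, ∀ p : ℕ, p.Prime → p ≤ 2 * k2 + 2 → p ∣ a := by
    intro a ha p hp hpk
    rw [hS, mem_image] at ha
    obtain ⟨i, _, rfl⟩ := ha
    unfold sh
    exact dvd_mul_of_dvd_left ((hp.dvd_factorial).2 hpk) _
  set c0 : ℕ := S.sup id with hc0d
  have hc0 : ∀ a ∈ S, a ≤ c0 := fun a ha => Finset.le_sup (f := id) ha
  set τ : ℕ → ℕ := fun s => c0 + 1 - s with hτ
  have hτ1 : ∀ s ∈ S, 1 ≤ τ s ∧ τ s ≤ c0 := by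
    intro s hs
    have h1 := hc0 s hs
    have h2 := hS1 s hs
    simp only [hτ]
    omega
  have hτi : Set.InjOn τ S := by
    intro s hs s' hs' he
    have h1 := hc0 s hs
    have h2 := hc0 s' hs'
    simp only [hτ] at he
    omega
  obtain ⟨D, h⟩ := hmain S τ hSc hS1 hτi (fun s hs => (hτ1 s hs).1) (c0 + 1)
  refine ⟨c0, D + 1, fun ε hε => ?_⟩
  obtain ⟨X₀, h0⟩ := h (ε / 2) (by positivity) c0 (c0 + 1)
  obtain ⟨Xl, hXl⟩ := Filter.eventually_atTop.1 (log_tendsto.eventually_ge_atTop ((c0 : ℝ) + 1))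
  set c : ℕ := max Xl (c0 + 2) with hcd
  refine ⟨max X₀ ⌈2 * (c : ℝ) / ε⌉₊, fun σ hσ X hX => ?_⟩
  have h1 := h0 (QI S M0 K σ) (sel_run hk hK hm0 hmin σ hσ) (fun n => (c0 + 1) * good2 σ K r c0 n) (by
    intro X n hX1 hX2 hX3 he
    unfold gdR2
    set A := (Ico (4 * X) (8 * X)).filter (fun x => x ≤ 2 * n - (c0 + 1) ∧
      r ≤ (S.filter (fun a => QI S M0 K σ (2 * n - (c0 + 1) - x) a ∧ (x + τ a).Prime)).card ∧
      ∀ t : ℕ, 1 ≤ t → t ≤ c0 → (x + t).Prime → ∃ a ∈ S, τ a = t ∧ QI S M0 K σ (2 * n - (c0 + 1) - x) a) with hA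
    set f : ℕ → ℕ := fun x => cp (x + 1) with hf
    -- the properties of the elements of `A`
    have hAp : ∀ x ∈ A, x ≤ 2 * n - (c0 + 1) ∧ 4 * X ≤ x ∧ x + 1 ≤ pr (f x + 1) ∧ pr (f x + 1) ≤ pr (f x + r) ∧
        pr (f x + r) ≤ x + c0 := by
      intro x hx
      rw [hA, mem_filter, mem_Ico] at hx
      obtain ⟨⟨hx1, hx2⟩, hx3, hx4, hx5⟩ := hx
      refine ⟨hx3, hx1, pr_ge _ 1 le_rfl, pr_mono (by omega), ?_⟩
      have e1 := cp_add ((S.filter (fun a => QI S M0 K σ (2 * n - (c0 + 1) - x) a ∧ (x + τ a).Prime)).image τ)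
        x 1 c0 (by
          obtain ⟨e1, e2⟩ := hτ1 M0 hm0
          omega) (by
          intro t ht
          rw [mem_image] at ht
          obtain ⟨a, ha, rfl⟩ := ht
          exact (hτ1 a (mem_filter.1 ha).1).1) (by
          intro t ht
          rw [mem_image] at ht
          obtain ⟨a, ha, rfl⟩ := ht
          exact (hτ1 a (mem_filter.1 ha).1).2)
      have e2 : ((S.filter (fun a => QI S M0 K σ (2 * n - (c0 + 1) - x) a ∧ (x + τ a).Prime)).image τ).filter
          (fun a => (x + a).Prime) =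
          (S.filter (fun a => QI S M0 K σ (2 * n - (c0 + 1) - x) a ∧ (x + τ a).Prime)).image τ := by
        rw [filter_eq_self]
        intro t ht
        rw [mem_image] at ht
        obtain ⟨a, ha, rfl⟩ := ht
        exact (mem_filter.1 ha).2.2
      rw [e2, card_image_of_injOn (hτi.mono (by
        intro a ha
        exact mem_coe.2 (mem_filter.1 (mem_coe.1 ha)).1))] at e1
      have e3 : pr (f x + r) < x + c0 + 1 := pr_lt (by omega) (by
        simp only [hf]
        omega)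
      omega
    have hfib : ∀ i ∈ A.image f, (A.filter (fun x => f x = i)).card ≤ c0 + 1 := by
      intro i _
      have h2 : (A.filter (fun x => f x = i)).card ≤ (Icc (pr (i + 1) - c0) (pr (i + 1))).card := by
        apply card_le_card
        intro x hx
        rw [mem_filter] at hx
        obtain ⟨hx1, rfl⟩ := hx
        obtain ⟨e1, e2, e3, e4, e5⟩ := hAp x hx1
        rw [mem_Icc]
        omega
      rw [Nat.card_Icc] at h2
      omega
    refine (card_le_mul_card_image A (c0 + 1) hfib).trans ?_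
    apply Nat.mul_le_mul_left
    unfold good2
    apply card_le_card
    intro i hi
    rw [mem_image] at hi
    obtain ⟨x, hx, rfl⟩ := hi
    obtain ⟨e1, e2, e3, e4, e5⟩ := hAp x hx
    rw [mem_filter, mem_range]
    have e6 : f x < pr (f x + 1) := lt_pr _
    refine ⟨by omega, by omega, ?_⟩
    rw [hA, mem_filter] at hx
    obtain ⟨hx1, hx3, hx4, hx5⟩ := hx
    -- every prime of the run
    have hall : ∀ j' : ℕ, 1 ≤ j' → j' ≤ r → ∃ j ∈ σ (cp (2 * n - (c0 + 1) - x + M0)),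
        pr (cp (2 * n - (c0 + 1) - x + M0) + j) < pr (f x + j') ∧
        pr (cp (2 * n - (c0 + 1) - x + M0) + j) + pr (f x + j') = 2 * n ∧
        pr (cp (2 * n - (c0 + 1) - x + M0) + K) ≤ 2 * n - (c0 + 1) - x + S.sup id := by
      intro j' hj1 hj2
      have g1 : pr (f x + 1) ≤ pr (f x + j') := pr_mono (by omega)
      have g2 : pr (f x + j') ≤ pr (f x + r) := pr_mono (by omega)
      obtain ⟨a, ha, hat, ⟨j, hj, hjp⟩, hjK⟩ := hx5 (pr (f x + j') - x) (by omega) (by omega) (by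
        rw [show x + (pr (f x + j') - x) = pr (f x + j') by omega]
        exact pr_prime _)
      have hac := hc0 a ha
      simp only [hτ] at hat
      exact ⟨j, hj, by omega, by omega, hjK⟩
    refine ⟨cp (2 * n - (c0 + 1) - x + M0), ?_, ?_⟩
    · obtain ⟨j, hj, _, _, hjK⟩ := hall 1 le_rfl hr
      have g1 := pr_ge (2 * n - (c0 + 1) - x + M0) 1 le_rfl
      omega
    · intro j' hj1 hj2
      obtain ⟨j, hj, g1, g2, _⟩ := hall j' hj1 hj2
      exact ⟨j, hj, g1, g2⟩) X ((le_max_left _ _).trans hX)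
  refine fin_small c hε (by
    have h2 : 2 * (c : ℝ) / ε ≤ X := (Nat.le_ceil _).trans (by exact_mod_cast (le_max_right _ _).trans hX)
    rw [div_le_iff₀ hε] at h2
    linarith) h1 ?_
  intro n hn hcn hP
  have hc1 : Xl ≤ n := (le_max_left _ _).trans hcn
  have hc2 : c0 + 2 ≤ n := (le_max_right _ _).trans hcn
  have hlog := hXl n hc1
  refine ⟨by omega, fun p hp => ?_, ?_⟩
  · obtain ⟨x, hx1, hx2⟩ := class_p S k2 hSc.le hSdiv (2 * n) (even_two_mul n) p hp
    refine ⟨x, fun a ha => ⟨(hx2 a ha).1, fun hm => (hx2 a ha).2 ?_⟩⟩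
    have h2 := hc0 a ha
    have h3 : x + a ≡ 2 * n - (c0 + 1) + τ a + a [MOD p] := Nat.ModEq.add_right a hm
    rwa [show 2 * n - (c0 + 1) + τ a + a = 2 * n by simp only [hτ]; omega] at h3
  · have hl0 : 0 < Real.log (n : ℝ) := by
      have : (0 : ℝ) ≤ c0 := Nat.cast_nonneg _
      linarith
    have hc00 : (0 : ℝ) < c0 + 1 := by positivity
    push_cast
    calc ((c0 : ℝ) + 1) * (good2 σ K r c0 n : ℝ) < (c0 + 1) * (n / Real.log n ^ (D + 1)) :=
          mul_lt_mul_of_pos_left hP hc00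
      _ = ((c0 + 1) / Real.log n) * (n / Real.log n ^ D) := by
          rw [pow_succ]
          field_simp
      _ ≤ 1 * (n / Real.log n ^ D) := by
          apply mul_le_mul_of_nonneg_right _ (by positivity)
          rw [div_le_one hl0]
          exact hlog
      _ = _ := one_mul _

end Pool.Agent.T2H22.AR
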