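import Pool.Agent.T2H22.AR.Run
import Pool.Agent.T2H22.DQ.Syn

/-! Project AR (runs on both sides): sets of indices with bounded gaps. -/

set_option autoImplicit false

open Finset

namespace Pool.Agent.T2H22.AR

open Pool.Agent.T2H22.AA
open Pool.Agent.T2H22.AQ
open Pool.Agent.T2H22.DQ (sig sig_spec mem_sig)

open Classical in
/-- the number of the `y ∈ [1, n]` such that for at least `r` of the `x ∈ [y, y + C]`, `n - x = p u` and `n + x = p v` with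
`u ∈ 𝒳` and `v ∈ 𝒴` -/
noncomputable def cl (𝒳 𝒴 : Set ℕ) (r C n : ℕ) : ℕ :=
  ((Icc 1 n).filter (fun y => r ≤ ((Icc y (y + C)).filter (fun x => ∃ u ∈ 𝒳, ∃ v ∈ 𝒴, 1 ≤ u ∧ 1 ≤ v ∧
    pr u + x = n ∧ n + x = pr v)).card)).card

theorem pr_lt_of {x y : ℕ} (hx : 1 ≤ x) (h : x < y) : pr x < pr y := by
  unfold pr
  exact Nat.nth_strictMono Nat.infinite_setOf_prime (by omega)

open Classical in
theorem good2_le_cl (𝒳 𝒴 : Set ℕ) (r m K C n : ℕ) (hr : 1 ≤ r) (hm : 1 ≤ m)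
    (h𝒴 : ∀ i : ℕ, ∃ x ∈ 𝒴, i < x ∧ x ≤ i + m) : good2 (sig 𝒳 K) K (r * m) C n ≤ cl 𝒳 𝒴 r C n := by
  have hrm : 1 ≤ r * m := Nat.mul_pos hr hm
  unfold good2 cl
  -- every prime of the run is larger than `n`
  have hbig : ∀ i', Good2 (sig 𝒳 K) K (r * m) C n i' → n < pr (i' + 1) ∧ pr (i' + 1) < 2 * n := by
    intro i' hi
    obtain ⟨_, i, _, h3⟩ := hi
    obtain ⟨j, hj, h4, h5⟩ := h3 1 le_rfl hrm
    have := (pr_prime (i + j)).pos
    omega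
  apply card_le_card_of_injOn (fun i' => pr (i' + 1) - n)
  · intro i' hi
    rw [mem_coe, mem_filter, mem_range] at hi
    obtain ⟨hi1, hi2⟩ := hi
    obtain ⟨hb1, hb2⟩ := hbig i' hi2
    obtain ⟨h1, i, h2, h3⟩ := hi2
    rw [mem_coe, mem_filter, mem_Icc]
    simp only
    refine ⟨⟨by omega, by omega⟩, ?_⟩
    obtain ⟨hs1, hs2⟩ := sig_spec 𝒴 r m h𝒴 i'
    refine hs2.trans ?_
    apply card_le_card_of_injOn (fun j' => pr (i' + j') - n)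
    · intro j' hj'
      obtain ⟨g1, g2, g3⟩ := mem_sig (mem_coe.1 hj')
      obtain ⟨j, hj, h4, h5⟩ := h3 j' g1 g2
      obtain ⟨g4, g5, g6⟩ := mem_sig hj
      have g7 : pr (i' + 1) ≤ pr (i' + j') := pr_mono (by omega)
      have g8 : pr (i' + j') ≤ pr (i' + r * m) := pr_mono (by omega)
      rw [mem_coe, mem_filter, mem_Icc]
      simp only
      refine ⟨⟨by omega, by omega⟩, i + j, g6, i' + j', g3, by omega, by omega, by omega, by omega⟩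
    · intro j' hj' j'' hj'' he
      obtain ⟨g1, g2, g3⟩ := mem_sig (mem_coe.1 hj')
      obtain ⟨g1', g2', g3'⟩ := mem_sig (mem_coe.1 hj'')
      simp only at he
      have g7 : pr (i' + 1) ≤ pr (i' + j') := pr_mono (by omega)
      have g7' : pr (i' + 1) ≤ pr (i' + j'') := pr_mono (by omega)
      have : pr (i' + j') = pr (i' + j'') := by omega
      have := pr_inj (by omega) (by omega) this
      omega
  · intro i' hi i'' hi' he
    rw [mem_coe, mem_filter, mem_range] at hi hi'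
    obtain ⟨hb1, hb2⟩ := hbig i' hi.2
    obtain ⟨hb1', hb2'⟩ := hbig i'' hi'.2
    simp only at he
    have : pr (i' + 1) = pr (i'' + 1) := by omega
    have := pr_inj (by omega) (by omega) this
    omega

open Classical in
theorem main_SS (hSec : SecM) (r m : ℕ) (hr : 1 ≤ r) (hm : 1 ≤ m) : ∃ C D : ℕ, ∀ ε : ℝ, 0 < ε →
    ∃ X₀ : ℕ, ∀ 𝒳 𝒴 : Set ℕ, (∀ i : ℕ, ∃ x ∈ 𝒳, i < x ∧ x ≤ i + m) → (∀ i : ℕ, ∃ x ∈ 𝒴, i < x ∧ x ≤ i + m) →
    ∀ X : ℕ, X₀ ≤ X →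
    (((Icc 1 X).filter (fun n : ℕ => (cl 𝒳 𝒴 r C n : ℝ) < n / Real.log n ^ D)).card : ℝ) ≤ ε * X := by
  obtain ⟨k, hk, hmain⟩ := main_RR hSec (r * m) (Nat.mul_pos hr hm)
  obtain ⟨C, D, h⟩ := hmain (k * m) (Nat.le_mul_of_pos_right k hm)
  refine ⟨C, D, fun ε hε => ?_⟩
  obtain ⟨X₀, h0⟩ := h ε hε
  refine ⟨X₀, fun 𝒳 𝒴 h𝒳 h𝒴 X hX => ?_⟩
  refine le_trans ?_ (h0 (sig 𝒳 (k * m)) (sig_spec 𝒳 k m h𝒳) X hX)
  apply Nat.cast_le.2
  apply card_le_card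
  intro n hn
  rw [mem_filter] at hn ⊢
  refine ⟨hn.1, lt_of_le_of_lt ?_ hn.2⟩
  exact_mod_cast good2_le_cl 𝒳 𝒴 r m (k * m) C n hr hm h𝒴

end Pool.Agent.T2H22.AR
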